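import Pool.Agent.Helper18.SG.Goals2
import Pool.Agent.Helper18.Tw.Stage

/-!
# Packet T1a of project SG: dimensions of the stages with two points
-/

set_option autoImplicit false

namespace Pool.Agent.Helper9.SG

open Helper18.Shgh Helper18.Cusp Helper18.Tw

theorem goalT1a : Pool.Agent.Helper18.SG.GoalT1a := by
  intro n a b e hR hb he
  have hN : (n : ℤ) - 3 * b = e := by omega
  have hY : YB (n : ℤ) a b = TP (e : ℤ) (qq 0) (qq 1) (a 0 - b) (a 1 - b) := by
    rw [YB_eq_TP (small_of hR hb), hN]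
  rw [hY]
  constructor
  · intro h
    have e1 := TP_eq_one qq01 (n := (e : ℤ)) (by omega) (a := a 0 - b) (b := a 1 - b)
      (Or.inl (by exact_mod_cast h))
    generalize Module.finrank ℂ (TP (e : ℤ) (qq 0) (qq 1) (a 0 - b) (a 1 - b)) = D at e1 ⊢
    generalize a 0 - b = p at e1 ⊢
    generalize a 1 - b = q at e1 ⊢
    have e2 : 2 * (D : ℤ) + p * (p + 1) + q * (q + 1) = (e + 1) * (e + 2) := by linarith
    exact_mod_cast e2
  · intro h
    exact TP_eq_two qq01 e _ _ h

end Pool.Agent.Helper9.SG
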