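import Pool.Agent.Helper52.SG.Goals2

/-!
Packet SG-FPN (MP_0a002a_al): Thompson's theorem, a finite group with a fixed point free automorphism
of prime order is nilpotent.
-/

set_option autoImplicit false

namespace Pool.Agent.Helper9.SG.FPN

open Subgroup Pool.H83Shunkov Pool.Agent.Helper29.SH Pool.Agent.Helper52.SG

/-- a group with an injective homomorphism to a nilpotent group is nilpotent -/
theorem nilp_of_injective {A B : Type} [Group A] [Group B] (f : A →* B)
    (hf : Function.Injective f) (hB : Group.IsNilpotent B) : Group.IsNilpotent A := by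
  have h1 : Group.IsNilpotent f.range := inferInstance
  exact (Group.isNilpotent_congr (MonoidHom.ofInjective hf)).2 h1

theorem cj_eq_of_inv {M : Type} [Group M] {g : M} {N : Subgroup M} (hfin : (N : Set M).Finite)
    (h : Inv g N) : cj N g = N := by
  have h1 : cj N g ≤ N := by
    intro x hx
    rw [mem_cj] at hx
    have := h _ hx
    have e : g⁻¹ * (g * x * g⁻¹) * g = x := by group
    rwa [e] at this
  have : Finite N := hfin
  exact Subgroup.eq_of_le_of_card_ge h1 (by rw [card_cj])

theorem mem_norm_of_inv {M : Type} [Group M] {g : M} {N : Subgroup M}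
    (hfin : (N : Set M).Finite) (h : Inv g N) : g ∈ normalizer (N : Set M) :=
  mem_normalizer_iff_cj.2 (cj_eq_of_inv hfin h)

theorem card_lt_of_surj {A B : Type} [Finite A] (f : A → B) (hf : Function.Surjective f)
    (x y : A) (hxy : x ≠ y) (h : f x = f y) : Nat.card B < Nat.card A := by
  have hB : Finite B := Finite.of_surjective f hf
  rcases lt_or_ge (Nat.card B) (Nat.card A) with h1 | h1
  · exact h1
  · exfalso
    have h2 : Nat.card A = Nat.card B :=
      le_antisymm h1 (Nat.card_le_card_of_surjective f hf)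
    have h3 : Function.Bijective f := (Nat.bijective_iff_surjective_and_card f).2 ⟨hf, h2⟩
    exact hxy (h3.1 h)

/-- the quotient by an invariant normal subgroup -/
theorem quot_nilp {M : Type} [Group M] (a : M) (K N : Subgroup M) (p : ℕ)
    (hap : a ^ p = 1) (hK : (K : Set M).Finite) (hInv : Inv a K) (hF : FPF a K)
    (ih : ∀ (M' : Type) [Group M'] (a' : M') (K' : Subgroup M'), Nat.card K' < Nat.card K →
      a' ^ p = 1 → (K' : Set M').Finite → Inv a' K' → FPF a' K' → Group.IsNilpotent K')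
    (hNK : N ≤ K) (hN : N ≠ ⊥) (hNa : Inv a N) (hNn : ∀ k ∈ K, ∀ n ∈ N, k⁻¹ * n * k ∈ N)
    [(N.subgroupOf K).Normal] : Group.IsNilpotent (K ⧸ N.subgroupOf K) := by
  have hNfin : (N : Set M).Finite := hK.subset hNK
  have hKf : Finite K := hK
  have ha : a ∈ normalizer (N : Set M) := mem_norm_of_inv hNfin hNa
  have hKM : K ≤ normalizer (N : Set M) := fun k hk => mem_norm_of_inv hNfin (hNn k hk)
  have hnor : (N.subgroupOf (normalizer (N : Set M))).Normal := inferInstance
  have hπe : ∀ x : normalizer (N : Set M),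
      (QuotientGroup.mk' (N.subgroupOf (normalizer (N : Set M)))) x = 1 ↔ (x : M) ∈ N := by
    intro x
    rw [QuotientGroup.mk'_apply, QuotientGroup.eq_one_iff, mem_subgroupOf]
  let π := QuotientGroup.mk' (N.subgroupOf (normalizer (N : Set M)))
  let K1 : Subgroup (normalizer (N : Set M)) := K.subgroupOf (normalizer (N : Set M))
  let a1 : normalizer (N : Set M) := ⟨a, ha⟩
  have hK1 : (K1 : Set (normalizer (N : Set M))).Finite :=
    Set.Finite.preimage (f := (Subtype.val : normalizer (N : Set M) → M)) (s := (K : Set M))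
      Subtype.val_injective.injOn hK
  have hInv1 : Inv a1 K1 := fun k hk => hInv (k : M) hk
  have hF1 : FPF a1 K1 := by
    intro k hk hc
    have := hF (k : M) hk (congrArg Subtype.val hc)
    exact Subtype.ext this
  have hF2 : FPF (π a1) (K1.map π) := by
    rintro _ ⟨k, hk, rfl⟩ hc
    have h1 : a1⁻¹ * k * a1 * k⁻¹ ∈ N.subgroupOf (normalizer (N : Set M)) := by
      rw [← QuotientGroup.eq_one_iff, ← QuotientGroup.mk'_apply, map_mul, map_mul, map_mul,
        map_inv, map_inv]
      change (π a1)⁻¹ * π k * π a1 * (π k)⁻¹ = 1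
      rw [mul_assoc (π a1)⁻¹, hc]
      group
    have h2 := h_LIFT _ a1 (N.subgroupOf (normalizer (N : Set M))) K1
      (fun f hf => ⟨K1, le_rfl, hK1, hInv1, hf⟩) hF1 k hk h1
    rw [← QuotientGroup.eq_one_iff, ← QuotientGroup.mk'_apply] at h2
    exact h2
  have hInv2 : Inv (π a1) (K1.map π) := by
    rintro _ ⟨k, hk, rfl⟩
    refine ⟨a1⁻¹ * k * a1, hInv1 k hk, ?_⟩
    rw [map_mul, map_mul, map_inv]
  have hap2 : (π a1) ^ p = 1 := by
    rw [← map_pow]
    have : a1 ^ p = 1 := Subtype.ext hap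
    rw [this, map_one]
  let ψ : K →* K1.map π :=
    { toFun := fun k => ⟨π ⟨k, hKM k.2⟩, ⟨⟨k, hKM k.2⟩, k.2, rfl⟩⟩
      map_one' := Subtype.ext (map_one π)
      map_mul' := fun x y => Subtype.ext (map_mul π ⟨x, hKM x.2⟩ ⟨y, hKM y.2⟩) }
  have hψs : Function.Surjective ψ := by
    rintro ⟨_, ⟨k, hk, rfl⟩⟩
    exact ⟨⟨k, hk⟩, rfl⟩
  have hψ1 : ∀ x : K, ψ x = 1 ↔ (x : M) ∈ N := by
    intro x
    rw [← hπe ⟨x, hKM x.2⟩]
    exact Subtype.ext_iff
  have hcard : Nat.card (K1.map π : Subgroup _) < Nat.card K := by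
    obtain ⟨n, hn, hn1⟩ := (N.ne_bot_iff_exists_ne_one).1 hN |>.elim
      (fun x hx => (⟨x, x.2, fun h => hx (Subtype.ext h)⟩ : ∃ n, n ∈ N ∧ n ≠ 1))
    refine card_lt_of_surj ψ hψs ⟨n, hNK hn⟩ 1 (fun h => hn1 (congrArg Subtype.val h)) ?_
    rw [map_one]
    exact (hψ1 _).2 hn
  have hnil := ih _ (π a1) (K1.map π) hcard hap2 (hK1.image _) hInv2 hF2
  have hker : ∀ x ∈ N.subgroupOf K, ψ x = 1 := fun x hx => (hψ1 x).2 (mem_subgroupOf.1 hx)
  refine nilp_of_injective (QuotientGroup.lift (N.subgroupOf K) ψ hker) ?_ hnil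
  rw [injective_iff_map_eq_one]
  intro x hx
  induction x using QuotientGroup.induction_on with
  | H x =>
    have h1 : ψ x = 1 := hx
    exact (QuotientGroup.eq_one_iff x).2 (mem_subgroupOf.2 ((hψ1 x).1 h1))

/-- conjugation by `a` on the invariant subgroup `K` -/
def conjHom {M : Type} [Group M] (a : M) (K : Subgroup M) (h : Inv a K) : K →* K where
  toFun k := ⟨a⁻¹ * k * a, h k k.2⟩
  map_one' := Subtype.ext (by
    change a⁻¹ * 1 * a = 1
    group)
  map_mul' x y := Subtype.ext (by
    change a⁻¹ * (x * y : M) * a = a⁻¹ * x * a * (a⁻¹ * y * a)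
    group)

theorem conjHom_inj {M : Type} [Group M] (a : M) (K : Subgroup M) (h : Inv a K) :
    Function.Injective (conjHom a K h) := by
  intro x y hxy
  have h1 : a⁻¹ * (x : M) * a = a⁻¹ * y * a := congrArg Subtype.val hxy
  exact Subtype.ext (mul_left_cancel (mul_right_cancel h1))

section intrinsic

variable {K : Type} [Group K] [Finite K] {φ : K →* K}

theorem map_eq_of_inv (hφ : Function.Injective φ) {P : Subgroup K} (h : ∀ x ∈ P, φ x ∈ P) :
    P.map φ = P := by
  have h1 : P.map φ ≤ P := by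
    rintro _ ⟨x, hx, rfl⟩
    exact h x hx
  refine Subgroup.eq_of_le_of_card_ge h1 ?_
  exact (Nat.card_congr (P.equivMapOfInjective φ hφ).toEquiv).le

omit [Finite K] in
theorem mem_iff_of_map (hφ : Function.Injective φ) {P : Subgroup K} (h : P.map φ = P) (x : K) :
    φ x ∈ P ↔ x ∈ P := by
  constructor
  · intro hx
    rw [← h] at hx
    obtain ⟨y, hy, hxy⟩ := hx
    rwa [← hφ hxy]
  · intro hx
    rw [← h]
    exact ⟨x, hx, rfl⟩

theorem surj_of_inj (hφ : Function.Injective φ) : Function.Surjective φ :=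
  Finite.injective_iff_surjective.1 hφ

theorem norm_inv (hφ : Function.Injective φ) {P : Subgroup K} (h : P.map φ = P) (x : K)
    (hx : x ∈ normalizer (P : Set K)) : φ x ∈ normalizer (P : Set K) := by
  rw [mem_normalizer_iff] at hx ⊢
  intro y
  obtain ⟨z, rfl⟩ := surj_of_inj hφ y
  rw [mem_iff_of_map hφ h, hx z, ← map_mul, ← map_inv, ← map_mul, mem_iff_of_map hφ h]

theorem cent_inv (hφ : Function.Injective φ) {P : Subgroup K} (h : P.map φ = P) (x : K)
    (hx : x ∈ centralizer (P : Set K)) : φ x ∈ centralizer (P : Set K) := by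
  rw [mem_centralizer_iff] at hx ⊢
  intro y hy
  obtain ⟨z, rfl⟩ := surj_of_inj hφ y
  have hz : z ∈ P := (mem_iff_of_map hφ h z).1 hy
  rw [← map_mul, hx z hz, map_mul]

theorem caseB (hφ : Function.Injective φ)
    (hJP : S_JP) (hZP : S_ZP) (hPNO : S_PNO) (hTHO : S_THO) (hNPN : S_NPN)
    (hS : ∀ q : ℕ, q.Prime → ∃ S : Subgroup K, Nat.card S = q ^ (Nat.card K).factorization q ∧
      ∀ x ∈ S, φ x ∈ S)
    (hB : ∀ J : Subgroup K, J ≠ ⊥ → J ≠ ⊤ → (∀ x ∈ J, φ x ∈ J) → J.Normal → False)
    (hI : ∀ L : Subgroup K, L ≠ ⊤ → (∀ x ∈ L, φ x ∈ L) → Group.IsNilpotent L) :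
    Group.IsNilpotent K := by
  by_cases h2 : ∃ r : ℕ, r.Prime ∧ r ≠ 2 ∧ r ∣ Nat.card K
  · obtain ⟨r, hr, hr2, hrK⟩ := h2
    have : Fact r.Prime := ⟨hr⟩
    obtain ⟨P, hPc, hPφ⟩ := hS r hr
    have hPg : IsPGroup r P := IsPGroup.of_card hPc
    by_cases hPT : P = ⊤
    · have h1 : Nat.card K = r ^ (Nat.card K).factorization r := by
        rw [← hPc, hPT, Subgroup.card_top]
      exact (IsPGroup.of_card h1).isNilpotent
    have hKpos : Nat.card K ≠ 0 := Nat.card_pos.ne'
    have hv : (Nat.card K).factorization r ≠ 0 := by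
      have := (hr.dvd_iff_one_le_factorization hKpos).1 hrK
      omega
    have hidx : ¬ r ∣ P.index := by
      intro h
      have h1 : Nat.card P * P.index = Nat.card K := P.card_mul_index
      have h2 : r ^ ((Nat.card K).factorization r + 1) ∣ Nat.card K := by
        have h3 : r ^ ((Nat.card K).factorization r) * r ∣
            r ^ ((Nat.card K).factorization r) * P.index := mul_dvd_mul_left _ h
        rw [← hPc, h1, hPc, ← pow_succ] at h3
        exact h3
      have h3 := (hr.pow_dvd_iff_le_factorization hKpos).1 h2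
      omega
    have hP1 : P ≠ ⊥ := by
      rintro rfl
      rw [Subgroup.card_bot] at hPc
      have := Nat.one_lt_pow hv hr.one_lt
      omega
    have hPm : P.map φ = P := map_eq_of_inv hφ hPφ
    -- the Thompson subgroup
    obtain ⟨-, hJ1, hJ2, -, hJ4, -⟩ := hJP K r hr P
    have hJne := hJ1 hPg hP1
    have hJm : (JJ r P).map φ = JJ r P := by
      have := hJ4 K φ (fun x _ hx => (injective_iff_map_eq_one φ).1 hφ x hx)
      rw [← this, hPm]
    have hJT : JJ r P ≠ ⊤ := fun h => hPT (top_le_iff.1 (h ▸ hJ2))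
    have hL1 : normalizer ((JJ r P : Subgroup K) : Set K) ≠ ⊤ := by
      intro h
      exact hB (JJ r P) hJne hJT (fun x hx => (mem_iff_of_map hφ hJm x).2 hx)
        (normalizer_eq_top_iff.1 h)
    have hN1 : PN r (normalizer ((JJ r P : Subgroup K) : Set K)) :=
      PN.sub.1 (hNPN _ r hr (hI _ hL1 (norm_inv hφ hJm)))
    -- the center
    obtain ⟨hZ1, hZ2, -⟩ := hZP K r hr P
    have hZne := hZ1 hPg hP1
    have hZle : ZS P ≤ P := inf_le_left
    have hZm : (ZS P).map φ = ZS P := by
      have := hZ2 K φ (fun x _ hx => (injective_iff_map_eq_one φ).1 hφ x hx)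
      rw [← this, hPm]
    have hZT : ZS P ≠ ⊤ := fun h => hPT (top_le_iff.1 (h ▸ hZle))
    have hL2 : centralizer ((ZS P : Subgroup K) : Set K) ≠ ⊤ := by
      intro h
      refine hB (ZS P) hZne hZT (fun x hx => (mem_iff_of_map hφ hZm x).2 hx) ⟨?_⟩
      intro x hx g
      have h1 : g ∈ centralizer ((ZS P : Subgroup K) : Set K) := h ▸ mem_top g
      rw [mem_centralizer_iff] at h1
      rw [← h1 x hx, mul_assoc, mul_inv_cancel, mul_one]
      exact hx
    have hN2 : PN r (centralizer ((ZS P : Subgroup K) : Set K)) :=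
      PN.sub.1 (hNPN _ r hr (hI _ hL2 (cent_inv hφ hZm)))
    have hPN := hTHO r hr hr2 K P hPg hidx hN1 hN2
    obtain ⟨O, hO1, hO2, hO3⟩ := hPNO K r hr ⊤ hPN
    have hOT : O ≠ ⊤ := by
      rintro rfl
      rw [Subgroup.card_top] at hO2
      exact hO2 hrK
    have hOb : O = ⊥ := by
      by_contra hne
      refine hB O hne hOT ?_ ⟨?_⟩
      · intro x hx
        rw [hO1] at hx ⊢
        refine ⟨mem_top _, ?_⟩
        rw [orderOf_injective φ hφ]
        exact hx.2
      · intro x hx g
        rw [hO1] at hx ⊢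
        refine ⟨mem_top _, ?_⟩
        have h1 : orderOf ((MulAut.conj g) x) = orderOf x :=
          orderOf_injective (MulAut.conj g).toMonoidHom (MulAut.conj g).injective x
        rw [MulAut.conj_apply] at h1
        rw [h1]
        exact hx.2
    have hKr : IsPGroup r K := by
      intro k
      obtain ⟨n, hn⟩ := hO3 k (mem_top k)
      rw [hOb, mem_bot] at hn
      exact ⟨n, hn⟩
    exact hKr.isNilpotent
  · have h3 : ∀ {d : ℕ}, d.Prime → d ∣ Nat.card K → d = 2 := by
      intro d hd hdK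
      by_contra h
      exact h2 ⟨d, hd, h, hdK⟩
    have h4 := Nat.eq_prime_pow_of_unique_prime_dvd Nat.card_pos.ne' h3
    have : Fact (Nat.Prime 2) := ⟨Nat.prime_two⟩
    exact (IsPGroup.of_card h4).isNilpotent

end intrinsic

theorem t (hJP : S_JP) (hZP : S_ZP) (hPNO : S_PNO) (hTHO : S_THO) (hNPN : S_NPN)
    (hFPA : S_FPA) : S_FPN := by
  have main : ∀ (p : ℕ), p.Prime → ∀ (n : ℕ) (M : Type) [Group M] (a : M) (K : Subgroup M),
      Nat.card K = n → a ^ p = 1 → (K : Set M).Finite → Inv a K → FPF a K →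
      Group.IsNilpotent K := by
    intro p hp n
    induction n using Nat.strong_induction_on with
    | _ n IH =>
    intro M _ a K hn hap hK hInv hF
    have ih : ∀ (M' : Type) [Group M'] (a' : M') (K' : Subgroup M'), Nat.card K' < Nat.card K →
        a' ^ p = 1 → (K' : Set M').Finite → Inv a' K' → FPF a' K' → Group.IsNilpotent K' :=
      fun M' _ a' K' hlt h1 h2 h3 h4 => IH (Nat.card K') (hn ▸ hlt) M' a' K' rfl h1 h2 h3 h4
    have hKf : Finite K := hK
    -- (i)
    have h_i : ∀ L : Subgroup M, L ≤ K → L ≠ K → Inv a L → Group.IsNilpotent L := by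
      intro L hL hne hInvL
      have hLf : (L : Set M).Finite := hK.subset hL
      refine ih M a L ?_ hap hLf hInvL (fun k hk => hF k (hL hk))
      have hss : (L : Set M) ⊂ (K : Set M) := by
        refine ⟨hL, fun h => hne (le_antisymm hL h)⟩
      exact Set.ncard_lt_ncard hss hK
    by_cases hA : ∃ N : Subgroup M, N ≤ K ∧ N ≠ K ∧ N ≠ ⊥ ∧ Inv a N ∧
        ∀ k ∈ K, ∀ x ∈ N, k⁻¹ * x * k ∈ N
    · obtain ⟨N, hN1, hN2, hN3, hN4, hN5⟩ := hA
      refine hFPA M a K N p hp hap hK hInv hF hN1 hN3 hN4 hN5 (h_i N hN1 hN2 hN4) ?_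
      intro N' h1 h2 h3 h4 _
      exact quot_nilp a K N' p hap hK hInv hF ih h1 h2 h3 h4
    · refine caseB (φ := conjHom a K hInv) (conjHom_inj a K hInv) hJP hZP hPNO hTHO hNPN ?_ ?_ ?_
      · intro q hq
        obtain ⟨S, hS1, hS2, hS3⟩ := h_SYE M a K p q hK hInv hF hp hap hq
        refine ⟨S.subgroupOf K, ?_, ?_⟩
        · rw [← hS2]
          exact Nat.card_congr (subgroupOfEquivOfLe hS1).toEquiv
        · intro x hx
          exact hS3 (x : M) hx
      · intro J hJ1 hJ2 hJ3 hJ4
        apply hA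
        refine ⟨J.map K.subtype, map_subtype_le J, ?_, ?_, ?_, ?_⟩
        · intro h
          apply hJ2
          rw [eq_top_iff]
          intro x _
          have : (x : M) ∈ J.map K.subtype := by
            rw [h]
            exact x.2
          obtain ⟨y, hy, hxy⟩ := this
          rwa [← Subtype.ext hxy]
        · intro h
          apply hJ1
          exact (Subgroup.map_eq_bot_iff_of_injective J K.subtype_injective).1 h
        · rintro _ ⟨x, hx, rfl⟩
          exact ⟨_, hJ3 x hx, rfl⟩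
        · rintro k hk _ ⟨x, hx, rfl⟩
          refine ⟨(⟨k, hk⟩ : K)⁻¹ * x * ⟨k, hk⟩, ?_, rfl⟩
          have := hJ4.conj_mem x hx (⟨k, hk⟩ : K)⁻¹
          rwa [inv_inv] at this
      · intro L hL1 hL2
        have h1 : Group.IsNilpotent (L.map K.subtype : Subgroup M) := by
          refine h_i _ (map_subtype_le L) ?_ ?_
          · intro h
            apply hL1
            rw [eq_top_iff]
            intro x _
            have : (x : M) ∈ L.map K.subtype := by
              rw [h]
              exact x.2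
            obtain ⟨y, hy, hxy⟩ := this
            rwa [← Subtype.ext hxy]
          · rintro _ ⟨x, hx, rfl⟩
            exact ⟨_, hL2 x hx, rfl⟩
        exact (Group.isNilpotent_congr (L.equivMapOfInjective _ K.subtype_injective)).2 h1
  intro M _ a K p hp hap hK hInv hF
  exact main p hp _ M a K rfl hap hK hInv hF

end Pool.Agent.Helper9.SG.FPN
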