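import Pool.Agent.Helper52.SG.Goals2

/-!
Packet SG-JP (MP_0a002a_al): basic properties of the Thompson subgroup.
-/

set_option autoImplicit false

namespace Pool.Agent.Helper9.SG.JP

open Subgroup Pool.H83Shunkov Pool.Agent.Helper29.SH Pool.Agent.Helper52.SG

section

variable {G G' : Type} [Group G] [Group G'] {r : ℕ}

theorem le_JJ {P A : Subgroup G} (h : IsMx r P A) : A ≤ JJ r P := le_sSup h

theorem JJ_le {P : Subgroup G} : JJ r P ≤ P := sSup_le fun _ h => h.1

theorem exists_mx [Finite G] (P : Subgroup G) : ∃ A, IsMx r P A := by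
  have hne : {A : Subgroup G | A ≤ P ∧ EA r A}.Nonempty := by
    refine ⟨⊥, bot_le, ?_, ?_⟩
    · intro x hx
      rw [mem_bot] at hx
      rw [hx, one_pow]
    · intro x hx y hy
      rw [mem_bot] at hx hy
      rw [hx, hy]
  obtain ⟨A, hA, hmax⟩ := Set.exists_max_image {A : Subgroup G | A ≤ P ∧ EA r A}
    (fun A => Nat.card A) (Set.toFinite _) hne
  exact ⟨A, hA.1, hA.2, fun B h1 h2 => hmax B ⟨h1, h2⟩⟩

theorem JJ_ne_bot [Finite G] (hr : r.Prime) {P : Subgroup G} (hP : IsPGroup r P) (hne : P ≠ ⊥) :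
    JJ r P ≠ ⊥ := by
  have : Fact r.Prime := ⟨hr⟩
  have : Nontrivial P := (nontrivial_iff_ne_bot P).2 hne
  obtain ⟨n, hn, hc⟩ := hP.nontrivial_iff_card.1 this
  have hd : r ∣ Nat.card P := by
    rw [hc]
    exact dvd_pow_self r (by omega)
  obtain ⟨x, hx⟩ := exists_prime_orderOf_dvd_card' r hd
  have hx' : orderOf (x : G) = r := by rw [Subgroup.orderOf_coe, hx]
  have hEA : EA r (zpowers (x : G)) := by
    constructor
    · rintro _ ⟨k, rfl⟩
      change ((x : G) ^ k) ^ r = 1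
      rw [← zpow_natCast, ← zpow_mul, mul_comm, zpow_mul, zpow_natCast, ← hx',
        pow_orderOf_eq_one, one_zpow]
    · rintro _ ⟨k, rfl⟩ _ ⟨l, rfl⟩
      change (x : G) ^ k * (x : G) ^ l = (x : G) ^ l * (x : G) ^ k
      rw [← zpow_add, ← zpow_add, add_comm]
  obtain ⟨A, hA⟩ := exists_mx (r := r) P
  have h1 : Nat.card (zpowers (x : G)) ≤ Nat.card A :=
    hA.2.2 _ (zpowers_le.2 x.2) hEA
  rw [Nat.card_zpowers, hx'] at h1
  intro h
  have h2 : A = ⊥ := by
    have := le_JJ hA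
    rw [h] at this
    exact le_bot_iff.1 this
  rw [h2, Subgroup.card_bot] at h1
  have := hr.one_lt
  omega

theorem JJ_mid [Finite G] {P T : Subgroup G} (hTP : T ≤ P) (hJT : JJ r P ≤ T) :
    JJ r T = JJ r P := by
  have h : ∀ A, IsMx r T A ↔ IsMx r P A := by
    intro A
    constructor
    · rintro ⟨h1, h2, h3⟩
      refine ⟨h1.trans hTP, h2, fun B hB1 hB2 => ?_⟩
      obtain ⟨A0, hA0⟩ := exists_mx (r := r) P
      exact (hA0.2.2 B hB1 hB2).trans (h3 A0 ((le_JJ hA0).trans hJT) hA0.2.1)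
    · intro hA
      exact ⟨(le_JJ hA).trans hJT, hA.2.1, fun B hB1 hB2 => hA.2.2 B (hB1.trans hTP) hB2⟩
  unfold JJ
  simp only [h]

theorem card_map_of_inj {P : Subgroup G} {f : G →* G'} (hf : ∀ x ∈ P, f x = 1 → x = 1)
    {A : Subgroup G} (hA : A ≤ P) : Nat.card (A.map f) = Nat.card A := by
  have hinj : Function.Injective (f.comp A.subtype) := by
    rw [injective_iff_map_eq_one]
    intro x hx
    exact Subtype.ext (hf x (hA x.2) hx)
  have h1 : (f.comp A.subtype).range = A.map f := by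
    rw [MonoidHom.range_eq_map, ← Subgroup.map_map, ← MonoidHom.range_eq_map, A.range_subtype]
  rw [← h1]
  exact (Nat.card_congr (MonoidHom.ofInjective hinj).toEquiv).symm

theorem EA.map' {A : Subgroup G} (f : G →* G') (h : EA r A) : EA r (A.map f) := by
  constructor
  · rintro _ ⟨x, hx, rfl⟩
    rw [← map_pow, h.1 x hx, map_one]
  · rintro _ ⟨x, hx, rfl⟩ _ ⟨y, hy, rfl⟩
    rw [← map_mul, h.2 x hx y hy, map_mul]

theorem EA.comap' {P : Subgroup G} {f : G →* G'} (hf : ∀ x ∈ P, f x = 1 → x = 1)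
    {B : Subgroup G'} (h : EA r B) : EA r (P ⊓ B.comap f) := by
  constructor
  · rintro x ⟨hx1, hx2⟩
    apply hf _ (P.pow_mem hx1 r)
    rw [map_pow]
    exact h.1 _ hx2
  · rintro x ⟨hx1, hx2⟩ y ⟨hy1, hy2⟩
    have h1 : x * y * (y * x)⁻¹ = 1 := by
      apply hf _ (P.mul_mem (P.mul_mem hx1 hy1) (P.inv_mem (P.mul_mem hy1 hx1)))
      have h2 : f x * f y = f y * f x := h.2 _ hx2 _ hy2
      rw [map_mul, map_inv, map_mul, map_mul, h2, mul_inv_cancel]
    exact mul_inv_eq_one.1 h1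

theorem map_comap' {P : Subgroup G} {f : G →* G'} {B : Subgroup G'} (hB : B ≤ P.map f) :
    (P ⊓ B.comap f).map f = B := by
  apply le_antisymm
  · rintro _ ⟨x, hx, rfl⟩
    exact hx.2
  · intro y hy
    obtain ⟨x, hx, rfl⟩ := hB hy
    exact ⟨x, ⟨hx, hy⟩, rfl⟩

theorem IsMx.map' {P A : Subgroup G} {f : G →* G'} (hf : ∀ x ∈ P, f x = 1 → x = 1)
    (h : IsMx r P A) : IsMx r (P.map f) (A.map f) := by
  refine ⟨map_mono h.1, EA.map' f h.2.1, fun B hB1 hB2 => ?_⟩
  have h1 := h.2.2 (P ⊓ B.comap f) inf_le_left (EA.comap' hf hB2)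
  rw [card_map_of_inj hf h.1, ← map_comap' hB1, card_map_of_inj hf inf_le_left]
  exact h1

theorem JJ_map {P : Subgroup G} {f : G →* G'} (hf : ∀ x ∈ P, f x = 1 → x = 1) :
    JJ r (P.map f) = (JJ r P).map f := by
  apply le_antisymm
  · apply sSup_le
    intro B hB
    have hB' : IsMx r (P.map f) B := hB
    rw [← map_comap' hB'.1]
    apply map_mono
    apply le_JJ
    refine ⟨inf_le_left, EA.comap' hf hB'.2.1, fun C hC1 hC2 => ?_⟩
    have h1 := hB'.2.2 (C.map f) (map_mono hC1) (EA.map' f hC2)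
    rw [card_map_of_inj hf hC1] at h1
    rw [← card_map_of_inj hf (inf_le_left : P ⊓ B.comap f ≤ P), map_comap' hB'.1]
    exact h1
  · rw [map_le_iff_le_comap]
    apply sSup_le
    intro A hA
    rw [← map_le_iff_le_comap]
    exact le_JJ (IsMx.map' hf hA)

end

theorem t : S_JP := by
  intro G _ _ r hr P
  refine ⟨exists_mx P, JJ_ne_bot hr, JJ_le, fun T => JJ_mid, fun G' _ _ f hf => JJ_map hf, ?_⟩
  intro g
  refine JJ_map (f := (MulAut.conj g⁻¹).toMonoidHom) ?_
  intro x _ hx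
  exact (MulAut.conj g⁻¹).injective (hx.trans (map_one (MulAut.conj g⁻¹)).symm)

end Pool.Agent.Helper9.SG.JP
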